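import Pool.Agent.P.MP_9167e9_an.StG

/-! Locality of the geometry of `Γ`. -/

noncomputable section
open scoped Classical

namespace Pool.Agent.P.MP_9167e9_an

namespace LocG

theorem nr_inv {A : Type} (x : FreeGroup A) : nr x⁻¹ = nr x :=
  @FreeGroup.norm_inv_eq A (Classical.decEq A) x

theorem nr_mul {A : Type} (x y : FreeGroup A) : nr (x * y) ≤ nr x + nr y :=
  @FreeGroup.norm_mul_le A (Classical.decEq A) x y

theorem nr_of {A : Type} (s : A) : nr (FreeGroup.of s) = 1 :=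
  @FreeGroup.norm_of A (Classical.decEq A) s

theorem nr_swap {A : Type} (x y : FreeGroup A) : nr (x * y⁻¹) = nr (y * x⁻¹) := by
  rw [← nr_inv, mul_inv_rev, inv_inv]

variable {P : Prm} {F F' : Set (Cell P)}

theorem mk_eq {a b : FreeGroup P.S} : mkG F a = mkG F b ↔ a⁻¹ * b ∈ KG F := QuotientGroup.eq

theorem mk_one {a : FreeGroup P.S} : mkG F a = 1 ↔ a ∈ KG F := QuotientGroup.eq_one_iff a

theorem Kg_mem {c : Cell P} (hc : c ∈ F) {k : FreeGroup P.S} (hk : k ∈ c.Kg) : k ∈ KG F :=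
  Subgroup.subset_normalClosure ⟨c, hc, hk⟩

theorem same_symm {c c' : Cell P} {x x' : FreeGroup P.S} (h : Same F F' c c' x x') :
    Same F' F c' c x' x :=
  ⟨h.adm', h.adm, h.mem', h.mem, h.R_eq.symm, fun e he => (h.agree e (h.R_eq ▸ he)).symm,
    h.core', h.core, fun a ha => (h.vis a (by simpa only [Cell.R2, h.R_eq] using ha)).symm⟩

/-- Short words that agree in `Γ` agree in `Γ'`. -/
def Tr (F F' : Set (Cell P)) (n : ℕ) : Prop :=
  ∀ a b, nr a + nr b ≤ n → mkG F a = mkG F b → mkG F' a = mkG F' b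

theorem small {R r n : ℕ} (h : r ^ 15 ≤ n) (hn : n ≤ R ^ 14) (h2 : 2 ≤ R) :
    r < R := by
  by_contra hlt
  push Not at hlt
  have h1 : R ^ 15 ≤ r ^ 15 := Nat.pow_le_pow_left hlt 15
  have h3 : R ^ 14 < R ^ 15 := Nat.pow_lt_pow_right h2 (by norm_num)
  omega

theorem short (g : Gam1 F) {R : ℕ} (hR : 2 ≤ R) (hag : ∀ e, e.R < R → e ∈ F → e ∈ F') :
    ∀ a, nr a ≤ R ^ 14 → a ∈ KG F → a ∈ KG F' := by
  intro a
  induction hn : nr a using Nat.strong_induction_on generalizing a with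
  | _ n ih =>
    intro hle ha
    by_cases h1 : a = 1
    · rw [h1]; exact one_mem _
    obtain ⟨e, he, δ, κ, hκ, h2, h3⟩ := g.dehn a ha h1
    have hlt : e.R < R := small h2 (hn ▸ hle) hR
    have c1 : δ⁻¹ * κ * δ ∈ KG F := (KG_normal F).conj_mem' _ (Kg_mem he hκ) δ
    have c2 : δ⁻¹ * κ * δ ∈ KG F' := (KG_normal F').conj_mem' _ (Kg_mem (hag e hlt he) hκ) δ
    have := ih _ (hn ▸ h3) _ rfl (by omega) (mul_mem ha c1)
    exact (Subgroup.mul_mem_cancel_right _ c2).1 this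

theorem tr_of {n : ℕ} (h : ∀ a, nr a ≤ n → a ∈ KG F → a ∈ KG F') : Tr F F' n := by
  intro a b hab hm
  refine mk_eq.2 (h _ ?_ (mk_eq.1 hm))
  have := nr_mul a⁻¹ b
  rw [nr_inv] at this
  omega

/-- A point of a copy of a cell near a point `q` of the cell is reached by a short word. -/
theorem lift (g : Gam1 F) {e : Cell P} (he : e ∈ F) (ok : e.OK) (bo : BasOut e)
    {q z b : FreeGroup P.S} (hq : q ∈ e.Qp) (hz : z ∈ e.Qp) (hm : mkG F z = mkG F (b * q)) :
    ∃ b', nr b' ≤ nr b ∧ mkG F b' = mkG F b ∧ b' * q ∈ e.Qp ∧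
      ∀ u, u * z ∈ e.Qp → u * b' * q ∈ e.Qp := by
  obtain ⟨k, hk, h1⟩ := g.iso e he q hq z hz
  obtain ⟨k1, k2⟩ := (bo.memK k).1 hk
  have k3 : e.vx k = e.v0 := congrArg Prod.fst k2
  have h2 : dG F (mkG F q) (mkG F z) ≤ nr b := by
    rw [hm, map_mul]; exact g.dG_le _ _
  refine ⟨z * k * q⁻¹, ?_, ?_, ?_, fun u hu => ?_⟩
  · rw [nr_swap, h1]; exact h2
  · rw [map_mul, map_mul, mk_one.2 (Kg_mem he hk), hm, map_mul, map_inv]; group
  · rw [inv_mul_cancel_right]; exact ok.inv z hz k k1 k3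
  · have : u * (z * k * q⁻¹) * q = u * z * k := by group
    rw [this]; exact ok.inv _ hu k k1 k3

/-- Membership in a copy of a common cell is local. -/
theorem ep (g : Gam1 F) {n : ℕ} (tr : Tr F F' n) {e : Cell P} (he : e ∈ F) (ok : e.OK)
    (bo : BasOut e) {y u δ t : FreeGroup P.S} {s : P.S} (hu : e.Qc (u * δ⁻¹))
    (hn : 2 * nr (y * u⁻¹) ≤ n) (h : (mkG F (y * t), s) ∈ EP F e (mkG F (δ * t))) :
    (mkG F' y, s) ∈ EP F' e (mkG F' δ) := by
  obtain ⟨z, hz, hz', hm⟩ := h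
  simp only at hz' hm
  have hm' : mkG F z = mkG F (y * u⁻¹ * (u * δ⁻¹)) := by
    have : mkG F z = mkG F (y * t) * (mkG F (δ * t))⁻¹ := by rw [hm]; group
    rw [this, ← map_inv, ← map_mul]; congr 1; group
  obtain ⟨b', h1, h2, h3, h4⟩ := lift g he ok bo (ok.sub _ hu) hz hm'
  refine ⟨b' * (u * δ⁻¹), h3, by rw [← mul_assoc]; exact h4 _ hz', ?_⟩
  have h5 := tr _ _ (by omega) h2
  simp only
  rw [map_mul, h5, ← map_mul, ← map_mul]; congr 1; group

theorem nc (g : Gam1 F) (g' : Gam1 F') (ad' : Adm F') (bas : StBas) {R : ℕ} (hR : 2 ≤ R)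
    (tr : Tr F F' (R ^ 14)) (tr' : Tr F' F (R ^ 14)) (hag : ∀ e, e.R < R → e ∈ F → e ∈ F')
    {x x' a a' : FreeGroup P.S} {s s' : P.S} (ha : 8 * nr a ≤ R ^ 14) (ha' : 8 * nr a' ≤ R ^ 14)
    (h : NC F (mkG F (a * x), s) (mkG F (a' * x), s')) :
    NC F' (mkG F' (a * x'), s) (mkG F' (a' * x'), s') := by
  rcases h with ⟨h1, h2⟩ | ⟨e, he, y, y', δ, hy, hy', hgeo, hrun, hnot⟩
  · refine Or.inl ⟨?_, h2⟩
    simp only [map_mul, mul_left_inj] at h1 ⊢
    exact tr _ _ (by omega) h1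
  simp only at hy hy' hnot
  have m1 : mkG F (y * y'⁻¹) = mkG F (a * a'⁻¹) := by
    rw [map_mul, map_inv, hy, hy', ← map_inv, ← map_mul]; congr 1; group
  have n1 : nr (a * a'⁻¹) ≤ nr a + nr a' := by
    have := nr_mul a a'⁻¹
    rwa [nr_inv] at this
  have n2 : nr (y * y'⁻¹) ≤ nr a + nr a' := by
    rw [(g.geo_iff y y').1 hgeo, g.dG_symm]
    have : mkG F y = mkG F (a * a'⁻¹) * mkG F y' := by rw [← m1, ← map_mul]; congr 1; group
    rw [this]
    exact (g.dG_le _ _).trans n1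
  obtain ⟨u, u', hu, hu', hlen, hsum⟩ := hrun
  have hlt : e.R < R := small (n := nr (u * u'⁻¹))
    (by have : e.L = e.R ^ 15 := rfl
        omega) (by omega) hR
  have he' := hag e hlt he
  have ok := ad'.ok e he'
  have bo := bas P e (by have := ad'.j_big; omega) ok
  set t := y'⁻¹ * (a' * x') with ht
  have m2 := tr _ _ (by omega) m1
  have e1 : mkG F' (y * t) = mkG F' (a * x') := by
    have : y * t = y * y'⁻¹ * (a' * x') := by rw [ht]; group
    rw [this, map_mul, m2, ← map_mul]; congr 1; group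
  have e2 : mkG F' (y' * t) = mkG F' (a' * x') := by rw [ht]; congr 1; group
  have d : ∀ p q : FreeGroup P.S, p * t * (q * t)⁻¹ = p * q⁻¹ := fun p q => by group
  refine Or.inr ⟨e, he', y * t, y' * t, δ * t, e1, e2, ?_, ?_, ?_⟩
  · intro k hk
    rw [d]
    by_contra hlt2
    push Not at hlt2
    set w := y * t * (y' * t * k)⁻¹ with hw
    have m3 : mkG F' w = mkG F' (y * y'⁻¹) := by
      rw [hw]
      simp only [map_mul, map_inv, mk_one.2 hk]
      group
    have m4 := tr' _ _ (by omega) m3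
    have k0 : (y⁻¹ * w * y')⁻¹ ∈ KG F := by
      refine inv_mem (mk_one.1 ?_)
      simp only [map_mul, map_inv, m4]
      group
    have := hgeo _ k0
    have e3 : y * (y' * (y⁻¹ * w * y')⁻¹)⁻¹ = w := by group
    rw [e3] at this
    omega
  · exact ⟨u * t, u' * t, by rw [d]; exact hu, by rw [d]; exact hu', by rw [d]; exact hlen,
      by simp only [d]; exact hsum⟩
  · rintro ⟨p1, p2⟩
    refine hnot ⟨?_, ?_⟩
    · rw [← hy]
      exact ep g' tr' he' ok bo (t := t) hu (by omega) (by rw [e1]; exact p1)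
    · rw [← hy']
      exact ep g' tr' he' ok bo (t := t) hu' (by rw [nr_swap]; omega) (by rw [e2]; exact p2)

end LocG

open LocG in
theorem pLocG (h1 : StGam1) (h2 : StBas) (_h3 : StNum) : StLocG := by
  intro P F F' c c' x x' h
  have g := h1 P F h.adm
  have g' := h1 P F' h.adm'
  have ok := h.adm.ok c h.mem
  have bo := h2 P c (by have := h.adm.j_big; omega) ok
  have hR : 2 ≤ c.R := by have := ok.R_big; omega
  have s1 := short (F' := F') g hR fun e he => (h.agree e he).1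
  have s2 := short (F' := F) g' hR fun e he => (h.agree e he).2
  have tr := tr_of s1
  have tr' := tr_of s2
  have hR2 : c.R2 = c.R ^ 14 := rfl
  have h13 : 2 * c.R ^ 13 ≤ c.R ^ 14 := by
    rw [pow_succ c.R 13, mul_comm]; exact Nat.mul_le_mul_left _ hR
  refine ⟨s1, ?_, ?_, ?_⟩
  · rintro a ha ⟨z, hz, hm⟩
    obtain ⟨b, b1, b2, b3, -⟩ := lift g h.mem ok bo (ok.sub _ h.core) hz hm
    refine ⟨b * x', (h.vis b (by omega)).1 b3, ?_⟩
    rw [map_mul, map_mul, tr _ _ (by omega) b2]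
  · rintro a s ha ha' ⟨z, hz, hz', hm⟩
    simp only [mul_one] at hz' hm
    obtain ⟨b, b1, b2, b3, b4⟩ := lift g h.mem ok bo (ok.sub _ h.core) hz hm.symm
    refine ⟨b * x', (h.vis b (by omega)).1 b3, ?_, ?_⟩
    · have n1 := nr_mul (FreeGroup.of s)⁻¹ b
      rw [nr_inv, nr_of] at n1
      rw [← mul_assoc]
      exact (h.vis ((FreeGroup.of s)⁻¹ * b) (by omega)).1 (b4 _ hz')
    · simp only [mul_one]
      rw [map_mul, map_mul, tr _ _ (by omega) b2]
  · intro a a' s s' ha ha' hadj hnc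
    exact hadj (nc g' g h.adm h2 hR tr' tr (fun e he => (h.agree e he).2) ha ha' hnc)

end Pool.Agent.P.MP_9167e9_an
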