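import Pool.Agent.P.MP_9167e9_an.Loc.ZA

/-!
Locality of the action on the model: coincidences of short words transfer along `Same`.
-/

noncomputable section
open scoped Classical

namespace Pool.Agent.P.MP_9167e9_an

namespace LZ

variable {P : Prm} {F F' : Set (Cell P)} {c c' : Cell P} {x x' : FreeGroup P.S}

theorem cwd_mem {e : Cell P} {δ : Gam F} {T : Set (Lm F)} (h : ∀ i, ed F e δ i ∈ T)
    (a : (e.V × Fin P.j) × ZMod 2 → ZMod P.h) : cwd F e δ a ∈ Par (adj F) (ZMod P.h) T := by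
  unfold cwd prodL
  refine Subgroup.list_prod_mem _ fun z hz => ?_
  simp only [List.map_map, List.mem_map, Function.comp_apply] at hz
  obtain ⟨i, _, rfl⟩ := hz
  exact lmp_mem _ (h i) _

/-- A copy of a small cell that meets the ball lies in a slightly larger ball, and its code words
are killed by the transfer map. -/
theorem small_cell {φ : PP F →* NN F'} (hφ : Tr F F' c x x' φ) {e : Cell P} (he : e ∈ F)
    (he' : e ∈ F') (ok : e.OK) (hb : BasOut e) {δ : Gam F} {r : ℕ} {f : Lm F}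
    (hf : f ∈ EP F e δ) (hf' : f ∈ Bl F x r) (hr : 8 * (r + e.sz) ≤ c.R ^ 14) :
    EP F e δ ⊆ Bl F x (r + e.sz) ∧
      ∀ k ∈ WP F e δ, k ∈ Par (adj F) (ZMod P.h) (Bl F x (r + e.sz)) ∧ φ k = 1 := by
  obtain ⟨x0, hx0, -, h0⟩ := hf
  obtain ⟨a0, ha0, h1⟩ := hf'
  have key : ∀ x1 ∈ e.Qp, ∃ b, nr b ≤ r + e.sz ∧ mkG F x1 * δ = mkG F (b * x) ∧
      mkG F' x1 * ((mkG F' x0)⁻¹ * mkG F' (a0 * x')) = mkG F' (b * x') := by
    intro x1 hx1
    obtain ⟨k, hk, h2⟩ := hb.covP x1 hx1 x0 hx0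
    refine ⟨x1 * (x0 * k)⁻¹ * a0, ?_, ?_, ?_⟩
    · have h3 := nr_mul (x1 * (x0 * k)⁻¹) a0
      omega
    · rw [mul_assoc _ a0, map_mul _ _ (a0 * x), ← h1, h0, map_mul, map_inv, map_mul, mkG_K he hk]
      group
    · rw [mul_assoc _ a0, map_mul _ _ (a0 * x'), map_mul _ x1, map_inv, map_mul _ x0, mkG_K he' hk]
      group
  refine ⟨?_, ?_⟩
  · rintro f1 ⟨x1, hx1, -, h2⟩
    obtain ⟨b, h3, h4, -⟩ := key x1 hx1
    exact ⟨b, h3, h2.trans h4⟩
  · rintro k ⟨a, ha, rfl⟩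
    refine ⟨cwd_mem (fun i => ?_) a, ?_⟩
    · obtain ⟨b, h3, h4, -⟩ := key _ (ok.sub _ (hb.rp (i.1.1, i.2)).1)
      exact ⟨b, h3, h4⟩
    · rw [← mkN_K he' (δ := (mkG F' x0)⁻¹ * mkG F' (a0 * x')) ⟨a, ha, rfl⟩]
      unfold cwd prodL
      rw [map_list_prod, map_list_prod]
      simp only [List.map_map]
      refine congrArg List.prod (List.map_congr_left fun i _ => ?_)
      obtain ⟨b, h3, h4, h5⟩ := key _ (ok.sub _ (hb.rp (i.1.1, i.2)).1)
      simp only [Function.comp_apply, ed, pos]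
      rw [h4, h5]
      exact hφ b _ _ (by omega)

theorem pcl_surj (Q : PC F) : ∃ e he δ q, Q = pcl F e he δ q := by
  obtain ⟨⟨e, T, U⟩, he, δ, q, h1, h2⟩ := Q
  simp only at he h1 h2
  subst h1 h2
  exact ⟨e, he, δ, q, rfl⟩

/-- An element of the lamp group of the base copy that is supported near the base point is
transferred to the lamp group of the other base copy. -/
theorem main {w : WS (PP F) (Wall (adj F) (ZMod P.h)) (PC F)} (hw : PInst w)
    (hS : Same F F' c c' x x') (hB : BrOut F c hS.mem w) (hN : NumAdm F)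
    (hb : ∀ e ∈ F, BasOut e) {φ : PP F →* NN F'} (hφ : Tr F F' c x x' φ)
    (hE : ∀ a s, 2 * nr a ≤ c.R ^ 14 → nr a + 1 ≤ c.R ^ 14 → (mkG F (a * x), s) ∈ EP F c 1 →
      (mkG F' (a * x'), s) ∈ EP F' c' 1) (n : ℕ) :
    ∀ r z, n ≤ 2 * c.R ^ 12 → 8 * (r + n * c.R) ≤ c.R ^ 14 →
      z ∈ Par (adj F) (ZMod P.h) (Bl F x r) → (w.WB (pcl F c hS.mem 1 1) z).card ≤ n →
      cls F c z = cls F c 1 → φ z ∈ As F' c' := by
  have hR := (hS.adm.ok c hS.mem).R_big
  have hW : ∀ r z, z ∈ Par (adj F) (ZMod P.h) (Bl F x r) →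
      ∀ a ∈ w.WB (pcl F c hS.mem 1 1) z, a.1 ∈ Bl F x r := by
    intro r z hz a ha
    have h1 : (1 : PP F) ∈ w.cell (pcl F c hS.mem 1 1) := by
      rw [hw.cell_eq]
      change (1 : PP F) * 1⁻¹ ∈ Par _ _ _
      rw [mul_inv_cancel]
      exact one_mem _
    have h2 := (hw.pre.gate_sep _ _ _ (w.π_gate (pcl F c hS.mem 1 1) z) a).mp ha 1 h1
    refine (hw.gp.supp _ 1 z).mp ?_ a h2
    rw [one_mul]
    exact inv_mem hz
  have base : ∀ r z, 8 * r ≤ c.R ^ 14 → z ∈ Par (adj F) (ZMod P.h) (Bl F x r) →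
      (w.WB (pcl F c hS.mem 1 1) z).card = 0 → φ z ∈ As F' c' := by
    intro r z hr hz h0
    have h1 : z ∈ w.cell (pcl F c hS.mem 1 1) := by
      rw [← (hw.pre.d_zero _ _).mp h0]
      exact (w.π_gate _ _).1
    rw [hw.cell_eq] at h1
    have h2 := (hw.gp.supp (EP F c 1) z 1).mp h1
    have h3 := (hw.gp.supp (Bl F x r) z 1).mp (by rwa [inv_one, mul_one])
    have h4 := (hw.gp.supp (EP F c 1 ∩ Bl F x r) z 1).mpr fun a ha => ⟨h2 a ha, h3 a ha⟩
    rw [inv_one, mul_one] at h4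
    refine (Subgroup.closure_le ((As F' c').comap φ)).mpr ?_ h4
    rintro _ ⟨⟨γ, s⟩, ⟨h5, a, h6, h7⟩, t, rfl⟩
    simp only at h7
    subst h7
    have h8 : 2 ≤ c.R ^ 14 := le_trans (by omega) (Nat.le_self_pow (by norm_num) c.R)
    change φ _ ∈ As F' c'
    rw [hφ a s t (by omega)]
    exact ⟨_, lmp_mem _ (hE a s (by omega) (by omega) h5) t, rfl⟩
  induction n with
  | zero => exact fun r z _ hr hz h0 _ => base r z (by omega) hz (by omega)
  | succ n ih =>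
    intro r z hn hr hz h0 hc
    by_cases hg : w.Good (pcl F c hS.mem 1 1) z
    · exact base r z (by omega) hz (by rw [hB.good_base z hg hc, Finset.card_empty])
    obtain ⟨Q, k, hk, h1, h2, ⟨a, ha, h3⟩, h4⟩ := shorten w hw.pre hw.out _ z hg
    obtain ⟨e, he, δ, q, rfl⟩ := pcl_surj Q
    rw [hw.g_eq] at h1
    change e.gP < _ at h1
    have hlt : e.R < c.R := by
      by_contra hle
      have h5 := hN.bigP c hS.mem e he (not_lt.mp hle)
      have h6 : c.g ≤ c.g ^ 4 := Nat.le_self_pow (by norm_num) _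
      have h7 : c.R ^ 12 ≤ c.R ^ 15 := Nat.pow_le_pow_right (by omega) (by norm_num)
      unfold Cell.g at h5 h6
      omega
    have hsz : e.sz ≤ c.R := (hN.small c hS.mem e he hlt).trans (hN.one c hS.mem).δ0_le
    rw [hw.cell_eq] at h3
    have h5 := ((hw.gp.cross (EP F e δ) q a).mp h3).1
    rw [add_mul n 1, one_mul] at hr
    obtain ⟨h6, h7⟩ := small_cell hφ he ((hS.agree e hlt).mp he) (hS.adm.ok e he) (hb e he) h5
      (hW r z hz a ha) (by omega)
    obtain ⟨h8, h9⟩ := h7 _ ((hw.K_iff e he δ q k).mp hk)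
    have hk1 : φ k = 1 := by
      rw [map_mul, map_mul, map_inv, mul_inv_eq_one, mul_eq_left] at h9
      exact h9
    have hk2 : mkN F k = 1 := by
      have h10 := mkN_K he ((hw.K_iff e he δ q k).mp hk)
      rw [map_mul, map_mul, map_inv, mul_inv_eq_one, mul_eq_left] at h10
      exact h10
    have hm : w.π (pcl F e he δ q) z * q⁻¹ ∈ Par (adj F) (ZMod P.h) (EP F e δ) := by
      have h10 := (w.π_gate (pcl F e he δ q) z).1
      rw [hw.cell_eq] at h10
      exact h10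
    have hm' := Par_mono _ _ h6 hm
    have hle := Par_mono (adj F) (ZMod P.h) (Bl_mono F x (Nat.le_add_right r e.sz))
    have hz1 := hle ((hw.gp.supp (Bl F x r) z _).mpr fun b hb' => hW r z hz b (h4 b hb'))
    have hz2 : z * k ∈ Par (adj F) (ZMod P.h) (Bl F x (r + e.sz)) := by
      have h10 := mul_mem (mul_mem (mul_mem hz1 (mul_mem (mul_mem hm' h8) (inv_mem hm')))
        (inv_mem hz1)) (hle hz)
      convert h10 using 1
      group
    have h11 := ih (r + e.sz) (z * k) (by omega) (by omega) hz2 (by omega) (by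
      rw [← hc]
      unfold cls
      rw [map_mul, hk2, mul_one])
    rwa [map_mul, hk1, mul_one] at h11

end LZ

open LZ in
theorem pLocZ (hL : StLocG) (hPW : StPW) (hBr : StBr) (_ : StGam1) (hBas : StBas) (hNum : StNum)
    (_ : StNF) : StLocZ := by
  intro P F F' c c' x x' hS u u' hu hu' h
  obtain ⟨hK, -, hE, hA⟩ := hL P F F' c c' x x' hS
  obtain ⟨w, hw⟩ := hPW P F hS.adm
  obtain ⟨w', hw'⟩ := hPW P F' hS.adm'
  obtain ⟨φ, hφ⟩ := ex_phi hw.gp hw'.gp hK hA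
  have hR := (hS.adm.ok c hS.mem).R_big
  have p1 : 1000 * c.R ^ 12 ≤ c.R ^ 12 * c.R := by
    rw [mul_comm]
    exact Nat.mul_le_mul_left _ hR
  have p2 : 1000 * (c.R ^ 12 * c.R) ≤ c.R ^ 14 := by
    rw [show c.R ^ 14 = c.R * (c.R ^ 12 * c.R) by ring]
    exact Nat.mul_le_mul_right _ hR
  obtain ⟨l, rfl, hl⟩ := ex_word u
  obtain ⟨l', rfl, hl'⟩ := ex_word u'
  rw [← hl] at hu
  rw [← hl'] at hu'
  obtain ⟨a, y, h1, h2, h3, h4, h5⟩ := walk (c' := c') hw.gp hw.pre hφ l (by omega)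
  obtain ⟨a', y', h1', h2', h3', h4', h5'⟩ := walk (c' := c') hw.gp hw.pre hφ l' (by omega)
  rw [h4, h4'] at h
  rw [h5, h5']
  obtain ⟨e1, e2⟩ := Prod.mk.inj h
  refine Prod.ext (pos_tr hK (by omega) (by omega) e1) (QuotientGroup.eq.mpr ?_)
  rw [← map_inv, ← map_mul]
  refine main hw hS (hBr P F hS.adm c hS.mem w hw) (hNum P F hS.adm)
    (fun e he => hBas P e (by have := hS.adm.j_big; omega) (hS.adm.ok e he)) hφ hE
    (2 * c.R ^ 12) (c.R ^ 12) _ le_rfl (by rw [mul_assoc]; omega)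
    (mul_mem (inv_mem (Par_mono _ _ (Bl_mono F x hu) h2)) (Par_mono _ _ (Bl_mono F x hu') h2'))
    ?_ ?_
  · have k1 : (1 : PP F) ∈ w.cell (pcl F c hS.mem 1 1) := by
      rw [hw.cell_eq]
      change (1 : PP F) * 1⁻¹ ∈ Par _ _ _
      rw [mul_inv_cancel]
      exact one_mem _
    have k2 := (w.π_gate _ (y⁻¹ * y')).2 1 k1
    have k3 := hw.pre.d_tri (y⁻¹ * y') y' 1
    have k4 := hw.pre.d_mul y⁻¹ 1 y'
    have k5 := hw.pre.d_mul y⁻¹ 1 y
    rw [one_mul] at k4 k5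
    rw [inv_mul_cancel] at k5
    have k6 := hw.pre.d_comm y' 1
    have k7 := hw.pre.d_comm (w.π (pcl F c hS.mem 1 1) (y⁻¹ * y')) (y⁻¹ * y')
    change w.d _ _ ≤ _
    omega
  · refine (QuotientGroup.eq.mpr ?_).symm
    rw [map_one, inv_one, one_mul, map_mul, map_inv]
    exact QuotientGroup.eq.mp e2

end Pool.Agent.P.MP_9167e9_an
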