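import Pool.Agent.P.MP_9167e9_an.StG

/-!
Locality of the action on the model, first part: the transfer map and short words.
-/

noncomputable section
open scoped Classical

namespace Pool.Agent.P.MP_9167e9_an

namespace LZ

theorem nr_inv {A : Type} (x : FreeGroup A) : nr x⁻¹ = nr x :=
  @FreeGroup.norm_inv_eq A (Classical.decEq A) x

theorem nr_mul {A : Type} (x y : FreeGroup A) : nr (x * y) ≤ nr x + nr y :=
  @FreeGroup.norm_mul_le A (Classical.decEq A) x y

theorem nr_one {A : Type} : nr (1 : FreeGroup A) = 0 :=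
  @FreeGroup.norm_one A (Classical.decEq A)

theorem nr_of {A : Type} (a : A) : nr (FreeGroup.of a) = 1 :=
  @FreeGroup.norm_of A (Classical.decEq A) a

theorem ex_word {A : Type} (u : FreeGroup A) : ∃ l, u = FreeGroup.mk l ∧ l.length = nr u :=
  ⟨@FreeGroup.toWord A (Classical.decEq A) u, (@FreeGroup.mk_toWord A (Classical.decEq A) u).symm,
    rfl⟩

/-- A point that is not good is moved closer to the base cell by a rotation of a small cell. -/
theorem shorten {X J : Type} {C : Type 1} [Group X] (w : WS X J C) (hp : PreOut w.toPreWS)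
    (ho : WSOut w) (B : C) (z : X) (h : ¬ w.Good B z) :
    ∃ Q, ∃ k ∈ w.K Q, w.g Q < 10 * (w.WB B z).card ∧
      (w.WB B (z * k)).card < (w.WB B z).card ∧
      (∃ a ∈ w.WB B z, w.Cross a (w.cell Q)) ∧ ∀ a ∈ w.W z (w.π Q z), a ∈ w.WB B z := by
  unfold WS.Good at h
  push Not at h
  obtain ⟨Q, k, hk, h⟩ := h
  have h1 := w.big Q
  have h2 := w.θ_pos Q
  have h3 := ho.pass Q (w.π B z) z (by omega)
  have e1 : ∀ y, (w.WB B y).card = w.d (w.π B y) y := fun _ => rfl
  refine ⟨Q, k, hk, ?_, ?_, ?_, ?_⟩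
  · rw [e1]; omega
  · rw [e1, e1]
    have h4 := (w.π_gate B (z * k)).2 _ (w.π_gate B z).1
    have h5 := hp.d_tri (w.π B z) (w.π Q (w.π B z)) (z * k)
    have h6 := hp.d_tri (w.π Q (w.π B z)) (w.π Q z * k) (z * k)
    have h7 := hp.d_mul (w.π Q z) z k
    have h8 := hp.d_comm (w.π B (z * k)) (z * k)
    have h9 := hp.d_comm (w.π B z) (z * k)
    omega
  · have h4 : 0 < (w.W (w.π Q (w.π B z)) (w.π Q z)).card := by
      change 0 < w.run Q (w.π B z) z
      omega
    obtain ⟨a, ha⟩ := Finset.card_pos.mp h4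
    have h5 := (hp.gate_W _ _ _ _ _ (w.π_gate Q (w.π B z)) (w.π_gate Q z) a).mp ha
    exact ⟨a, h5.1, h5.2⟩
  · intro a ha
    have h4 := hp.d_tri (w.π B z) (w.π Q (w.π B z)) (w.π Q z)
    have h5 := hp.d_tri (w.π B z) (w.π Q z) z
    have h6 : w.run Q (w.π B z) z = w.d (w.π Q (w.π B z)) (w.π Q z) := rfl
    have h7 := (hp.W_add (w.π B z) (w.π Q z) z (by omega)).1
    unfold WS.WB
    rw [h7]
    refine Finset.mem_union_right _ ?_
    rw [w.mem_W] at ha ⊢
    exact ha.symm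

variable {P : Prm}

/-- The lamps within distance `r` of the base point. -/
def Bl (F : Set (Cell P)) (x : FreeGroup P.S) (r : ℕ) : Set (Lm F) :=
  {f | ∃ a, nr a ≤ r ∧ f.1 = mkG F (a * x)}

theorem Bl_mono (F : Set (Cell P)) (x : FreeGroup P.S) {r r' : ℕ} (h : r ≤ r') :
    Bl F x r ⊆ Bl F x r' := fun _ ⟨a, h1, h2⟩ => ⟨a, h1.trans h, h2⟩

theorem Par_mono {L : Type} (ad : L → L → Prop) (H : Type) [AddCommGroup H] {T T' : Set L}
    (h : T ⊆ T') : Par ad H T ≤ Par ad H T' :=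
  Subgroup.closure_mono fun _ ⟨f, h1, h2⟩ => ⟨f, h h1, h2⟩

theorem lmp_mem {L : Type} (ad : L → L → Prop) {H : Type} [AddCommGroup H] {T : Set L} {f : L}
    (h : f ∈ T) (a : H) : lmp ad f a ∈ Par ad H T :=
  Subgroup.subset_closure ⟨f, h, a, rfl⟩

theorem mkG_K {F : Set (Cell P)} {e : Cell P} (he : e ∈ F) {k : FreeGroup P.S} (hk : k ∈ e.Kg) :
    mkG F k = 1 :=
  (QuotientGroup.eq_one_iff k).mpr (Subgroup.subset_normalClosure ⟨e, he, hk⟩)

theorem mkN_K {F : Set (Cell P)} {e : Cell P} (he : e ∈ F) {δ : Gam F} {k : PP F}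
    (hk : k ∈ WP F e δ) : mkN F k = 1 :=
  (QuotientGroup.eq_one_iff k).mpr (Subgroup.subset_normalClosure ⟨e, he, δ, hk⟩)

variable {F F' : Set (Cell P)} {c c' : Cell P} {x x' : FreeGroup P.S}

theorem pos_tr (hK : ∀ a, nr a ≤ c.R ^ 14 → a ∈ KG F → a ∈ KG F') {a a' : FreeGroup P.S}
    (ha : 8 * nr a ≤ c.R ^ 14) (ha' : 8 * nr a' ≤ c.R ^ 14)
    (h : mkG F (a * x) = mkG F (a' * x)) : mkG F' (a * x') = mkG F' (a' * x') := by
  rw [map_mul, map_mul] at h ⊢
  have h1 : a⁻¹ * a' ∈ KG F := QuotientGroup.eq.mp (mul_right_cancel h)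
  have h2 := nr_mul a⁻¹ a'
  rw [nr_inv] at h2
  have h3 : mkG F' a = mkG F' a' := QuotientGroup.eq.mpr (hK _ (by omega) h1)
  rw [h3]

/-- `φ` transfers the lamps near the base point. -/
def Tr (F F' : Set (Cell P)) (c : Cell P) (x x' : FreeGroup P.S) (φ : PP F →* NN F') : Prop :=
  ∀ a s t, 8 * nr a ≤ c.R ^ 14 →
    φ (lmp (adj F) (mkG F (a * x), s) t) = lampN F' (mkG F' (a * x'), s) t

theorem ex_phi {w : PreWS (PP F) (Wall (adj F) (ZMod P.h))} (hw : GPOut (adj F) w)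
    {w' : PreWS (PP F') (Wall (adj F') (ZMod P.h))} (hw' : GPOut (adj F') w')
    (hK : ∀ a, nr a ≤ c.R ^ 14 → a ∈ KG F → a ∈ KG F')
    (hA : ∀ a a' s s', 8 * nr a ≤ c.R ^ 14 → 8 * nr a' ≤ c.R ^ 14 →
      adj F (mkG F (a * x), s) (mkG F (a' * x), s') →
      adj F' (mkG F' (a * x'), s) (mkG F' (a' * x'), s')) :
    ∃ φ, Tr F F' c x x' φ := by
  obtain ⟨φ, hφ⟩ := hw.lift (NN F') (fun f t =>
    if h : ∃ a, 8 * nr a ≤ c.R ^ 14 ∧ f.1 = mkG F (a * x) then
      lampN F' (mkG F' (h.choose * x'), f.2) t else 1) (by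
      intro f a b
      split_ifs with h
      · unfold lampN
        rw [hw'.lmp_add, map_mul]
      · rw [mul_one]) (by
      intro f f' a b hf
      split_ifs with h h'
      · refine (hw'.lmp_comm _ _ a b (hA _ _ _ _ h.choose_spec.1 h'.choose_spec.1 ?_)).map (mkN F')
        rw [← h.choose_spec.2, ← h'.choose_spec.2]
        exact hf
      · exact Commute.one_right _
      · exact Commute.one_left _
      · exact Commute.one_left _)
  refine ⟨φ, fun a s t ha => ?_⟩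
  have h : ∃ b, 8 * nr b ≤ c.R ^ 14 ∧ (mkG F (a * x), s).1 = mkG F (b * x) := ⟨a, ha, rfl⟩
  rw [hφ, dif_pos h, pos_tr (x' := x') hK ha h.choose_spec.1 h.choose_spec.2]

theorem am_inl (s : P.S) (γ : Gam F) (n : NN F ⧸ As F c) :
    am F c (FreeGroup.of (Sum.inl s)) (γ, n) = (mkG F (FreeGroup.of s) * γ, n) := by
  simp [am]

theorem am_inr (s : P.S) (γ : Gam F) (n : NN F) :
    am F c (FreeGroup.of (Sum.inr s)) (γ, QuotientGroup.mk n) =
      (γ, QuotientGroup.mk (lampN F (γ, s) 1 * n)) := by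
  simp [am]

theorem am_inv {g : FreeGroup (P.S ⊕ P.S)} {z z' : Zm F c} (h : am F c g z = z') :
    am F c g⁻¹ z' = z := by
  rw [← h, ← Equiv.Perm.mul_apply, ← map_mul, inv_mul_cancel, map_one, Equiv.Perm.one_apply]

theorem d_lmp {w : PreWS (PP F) (Wall (adj F) (ZMod P.h))} (hw : GPOut (adj F) w)
    (hp : PreOut w) (f : Lm F) (t : ZMod P.h) (y : PP F) : w.d y (lmp (adj F) f t * y) ≤ 1 := by
  by_cases ht : t = 0
  · have h1 := hw.lmp_add f 0 0
    rw [add_zero] at h1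
    have h2 : lmp (adj F) f (0 : ZMod P.h) = 1 := by simpa using h1
    rw [ht, h2, one_mul, (hp.d_zero y y).mpr rfl]
    omega
  · unfold PreWS.d
    rw [hw.W_lmp f t y ht, Finset.card_singleton]

/-- A short word acts in the same way on both base points. -/
theorem walk {w : PreWS (PP F) (Wall (adj F) (ZMod P.h))} (hw : GPOut (adj F) w) (hp : PreOut w)
    {φ : PP F →* NN F'} (hφ : Tr F F' c x x' φ) (l : List ((P.S ⊕ P.S) × Bool))
    (hl : 8 * l.length ≤ c.R ^ 14) :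
    ∃ a y, nr a ≤ l.length ∧ y ∈ Par (adj F) (ZMod P.h) (Bl F x l.length) ∧
      w.d 1 y ≤ l.length ∧
      am F c (FreeGroup.mk l) (mkG F x, cls F c 1) = (mkG F (a * x), cls F c y) ∧
      am F' c' (FreeGroup.mk l) (mkG F' x', cls F' c' 1) =
        (mkG F' (a * x'), QuotientGroup.mk (φ y)) := by
  induction l with
  | nil =>
    refine ⟨1, 1, nr_one.le, one_mem _, ((hp.d_zero 1 1).mpr rfl).le, ?_, ?_⟩
    · rw [← FreeGroup.one_eq_mk, map_one, one_mul, Equiv.Perm.one_apply]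
    · rw [← FreeGroup.one_eq_mk, map_one, one_mul, Equiv.Perm.one_apply, map_one]
      rfl
  | cons g l ih =>
    rw [List.length_cons] at hl ⊢
    obtain ⟨a, y, h1, h2, h3, h4, h5⟩ := ih (by omega)
    have h2' := Par_mono (adj F) (ZMod P.h) (Bl_mono F x (Nat.le_succ l.length)) h2
    have hm : ∀ s, lmp (adj F) (mkG F (a * x), s) (1 : ZMod P.h) ∈
        Par (adj F) (ZMod P.h) (Bl F x (l.length + 1)) := fun s =>
      lmp_mem (T := Bl F x (l.length + 1)) _ ⟨a, by omega, rfl⟩ _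
    have e1 : FreeGroup.mk (g :: l) = FreeGroup.mk [g] * FreeGroup.mk l := by
      rw [FreeGroup.mul_mk]
      rfl
    have e2 : ∀ b : P.S ⊕ P.S, FreeGroup.mk [(b, true)] = FreeGroup.of b := fun _ => rfl
    have e3 : ∀ b : P.S ⊕ P.S, FreeGroup.mk [(b, false)] = (FreeGroup.of b)⁻¹ := fun _ => rfl
    rw [e1, map_mul, map_mul, Equiv.Perm.mul_apply, Equiv.Perm.mul_apply, h4, h5]
    obtain ⟨s | s, _ | _⟩ := g
    · refine ⟨(FreeGroup.of s)⁻¹ * a, y, ?_, h2', by omega, ?_, ?_⟩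
      · have h6 := nr_mul (FreeGroup.of s)⁻¹ a
        rw [nr_inv, nr_of] at h6
        omega
      · rw [e3]
        refine am_inv ?_
        rw [am_inl, ← map_mul, mul_assoc, mul_inv_cancel_left]
      · rw [e3]
        refine am_inv ?_
        rw [am_inl, ← map_mul, mul_assoc, mul_inv_cancel_left]
    · refine ⟨FreeGroup.of s * a, y, ?_, h2', by omega, ?_, ?_⟩
      · have h6 := nr_mul (FreeGroup.of s) a
        rw [nr_of] at h6
        omega
      · rw [e2, am_inl, ← map_mul, mul_assoc]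
      · rw [e2, am_inl, ← map_mul, mul_assoc]
    · refine ⟨a, (lmp (adj F) (mkG F (a * x), s) 1)⁻¹ * y, by omega,
        mul_mem (inv_mem (hm s)) h2', ?_, ?_, ?_⟩
      · have h6 := d_lmp hw hp (mkG F (a * x), s) 1 ((lmp (adj F) (mkG F (a * x), s) 1)⁻¹ * y)
        rw [mul_inv_cancel_left, hp.d_comm] at h6
        have h7 := hp.d_tri 1 y ((lmp (adj F) (mkG F (a * x), s) 1)⁻¹ * y)
        omega
      · rw [e3]
        refine am_inv ?_
        unfold cls
        rw [am_inr, lampN, ← map_mul, mul_inv_cancel_left]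
      · rw [e3]
        refine am_inv ?_
        rw [am_inr, ← hφ a s 1 (by omega), ← map_mul, mul_inv_cancel_left]
    · refine ⟨a, lmp (adj F) (mkG F (a * x), s) 1 * y, by omega, mul_mem (hm s) h2', ?_, ?_, ?_⟩
      · have h6 := d_lmp hw hp (mkG F (a * x), s) 1 y
        have h7 := hp.d_tri 1 y (lmp (adj F) (mkG F (a * x), s) 1 * y)
        omega
      · unfold cls
        rw [e2, am_inr, lampN, ← map_mul]
      · rw [e2, am_inr, ← hφ a s 1 (by omega), ← map_mul]

end LZ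

end Pool.Agent.P.MP_9167e9_an
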